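import Pool.Agent.Y348.CP.Rigid

/-!
# Non-erasing morphisms of class P'

A non-erasing morphism of class P' that maps the language of the new word into itself is the
identity.
-/

namespace Pool.Y348.CP

open Pool.Helper223.CP Pool.Helper223.CP.J1b Pool.Helper223.CP.J17b Pool.Helper223.CP.J19
  Pool.Helper223.CP.J20 Pool.Helper223.CP.J21 Pool.Helper223.CP.Fin1

theorem LX_many (n : ℕ) : ∃ t, LX t ∧ ∀ x : Fin 3, n ≤ t.count x := by
  have h0 : LX [] := ⟨[], ⟨0, List.nil_infix⟩, List.nil_infix⟩
  obtain ⟨t, ht, hcount⟩ := LX_ext_many h0 n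
  rw [List.nil_append] at ht
  exact ⟨t, ht, hcount⟩

theorem LX_single (x : Fin 3) : LX [x] := by
  obtain ⟨t, ht, hc⟩ := LX_many 1
  have h1 : x ∈ t := List.count_pos_iff.1 (hc x)
  obtain ⟨s, r, rfl⟩ := List.append_of_mem h1
  exact LX_infix ht ⟨s, r, by simp⟩

/-- a morphism with an image of length at least two expands -/
theorem unbounded {k : ℕ} {Φ : Fin k → List (Fin k)} {a : Fin k} {m : List (Fin k)}
    {Θ : Fin 3 → List (Fin k)} {ρ : Fin k → List (Fin 3)} (I : Inv k Φ a m Θ ρ)
    {ψ : Fin k → List (Fin k)} (hψ : ClassP' ψ)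
    (hL : ∀ w, (∃ v, LX v ∧ w <:+: ap Θ v) → ∃ v, LX v ∧ ap ψ w <:+: ap Θ v)
    (hne : ∀ c, ψ c ≠ []) (c₀ : Fin k) : (ψ c₀).length = 1 := by
  by_contra hcon
  have h1 : 0 < (ψ c₀).length := List.length_pos_iff.2 (hne c₀)
  obtain ⟨C, hC⟩ := bounded I hψ hL
  obtain ⟨x, hx⟩ := I.cov c₀
  obtain ⟨t, ht, hcount⟩ := LX_many (C + 1)
  have h1 := hC (ap Θ t) ⟨t, ht, List.infix_rfl⟩
  have h2 := expand hne (c₀ := c₀) (by omega) (ap Θ t)
  have h3 := count_ap hx t
  have h4 := hcount x
  omega

theorem center {k : ℕ} {Φ : Fin k → List (Fin k)} {a : Fin k} {m : List (Fin k)}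
    {Θ : Fin 3 → List (Fin k)} {ρ : Fin k → List (Fin 3)} (I : Inv k Φ a m Θ ρ)
    {W : List (Fin k)} (hW : W.reverse = W) {x : Fin 3} (hx : ap ρ W = [x]) :
    ∃ P c, W = P ++ c :: P.reverse ∧ ρ c = [x] ∧ ap ρ P = [] := by
  obtain ⟨r, e, he, hr⟩ := pal_half (List.Palindrome.of_reverse_eq hW)
  have h1 : (ap ρ r.reverse).length = (ap ρ r).length := by
    rw [← apr' (fun y => pal_of_le_one (I.rl y)), List.length_reverse]
  have h2 := congrArg List.length hx
  rw [hr, ap_append, ap_append, List.length_append, List.length_append, h1,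
    List.length_singleton] at h2
  have h3 : ap ρ r = [] := List.length_eq_zero_iff.1 (by omega)
  have h4 : ap ρ r.reverse = [] := List.length_eq_zero_iff.1 (by rw [h1, h3]; rfl)
  rw [hr, ap_append, ap_append, h3, h4, List.nil_append, List.append_nil] at hx
  match e, he with
  | [], _ => simp at hx
  | [c], _ =>
    refine ⟨r, c, by rw [hr]; simp, ?_, h3⟩
    rw [ap_cons, ap_nil, List.append_nil] at hx
    exact hx

theorem ap_eq_nil {α β : Type} {f : α → List β} {w : List α} (h : ap f w = []) {c : α}
    (hc : c ∈ w) : f c = [] := by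
  by_contra hcon
  obtain ⟨b, s, hb⟩ := List.exists_cons_of_ne_nil hcon
  have : b ∈ ap f w := mem_ap hc (by rw [hb]; simp)
  rw [h] at this
  simp at this

/-- the letters with nonempty projection occur in images only at the centers of the blocks -/
theorem locate {k : ℕ} {Φ : Fin k → List (Fin k)} {a : Fin k} {m : List (Fin k)}
    {Θ : Fin 3 → List (Fin k)} {ρ : Fin k → List (Fin 3)} (I : Inv k Φ a m Θ ρ) {c : Fin k}
    {x : Fin 3} (hc : ρ c = [x]) (z : List (Fin 3)) : ∀ L R, L ++ c :: R = ap Θ z →
      ∃ A B P, L = A ++ P ∧ R = P.reverse ++ B ∧ Θ x = P ++ c :: P.reverse := by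
  induction z with
  | nil =>
    intro L R h
    rw [ap_nil] at h
    simp at h
  | cons y z ih =>
    intro L R h
    rw [ap_cons, List.append_eq_append_iff] at h
    rcases h with ⟨a', h1, h2⟩ | ⟨c', h1, h2⟩
    · cases a' with
      | nil =>
        obtain ⟨A, B, P, hA, hB, hP⟩ := ih [] R (by simpa using h2)
        have hA' := List.append_eq_nil_iff.1 hA.symm
        refine ⟨L, B, P, by rw [hA'.2]; simp, hB, hP⟩
      | cons e a'' =>
        rw [List.cons_append, List.cons.injEq] at h2
        obtain ⟨h2, h3⟩ := h2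
        subst h2
        obtain ⟨P, c₁, hP, hc₁, hPn⟩ := center I (I.pal y) (I.rt y)
        have hPr : ap ρ P.reverse = [] := by
          rw [← apr' (fun y => pal_of_le_one (I.rl y)), hPn]; rfl
        have h4 : L = P ∧ c = c₁ ∧ a'' = P.reverse := by
          rw [hP, List.append_eq_append_iff] at h1
          rcases h1 with ⟨b, h5, h6⟩ | ⟨b, h5, h6⟩
          · cases b with
            | nil =>
              rw [List.nil_append, List.cons.injEq] at h6
              exact ⟨by simpa using h5, h6.1.symm, h6.2.symm⟩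
            | cons f b =>
              exfalso
              rw [List.cons_append, List.cons.injEq] at h6
              have := ap_eq_nil hPr (c := c) (by rw [h6.2]; simp)
              rw [hc] at this
              simp at this
          · cases b with
            | nil =>
              rw [List.nil_append, List.cons.injEq] at h6
              exact ⟨by simpa using h5.symm, h6.1, h6.2⟩
            | cons f b =>
              exfalso
              rw [List.cons_append, List.cons.injEq] at h6
              have := ap_eq_nil hPn (c := c) (by rw [h5, h6.1]; simp)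
              rw [hc] at this
              simp at this
        obtain ⟨rfl, rfl, rfl⟩ := h4
        have hxy : x = y := by
          have h5 : [x] = ap ρ (Θ y) := by
            rw [hP, ap_append, ap_cons, hPn, hPr, hc]; rfl
          rw [I.rt y] at h5
          simpa using h5
        subst hxy
        exact ⟨[], ap Θ z, L, by simp, h3, hP⟩
    · obtain ⟨A, B, P, hA, hB, hP⟩ := ih c' R h2.symm
      exact ⟨Θ y ++ A, B, P, by rw [h1, hA]; simp, hB, hP⟩

theorem map_fix {α : Type} {ψ : α → List α} (h1 : ∀ c, (ψ c).length = 1) :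
    ∀ w, ap ψ w = w → ∀ c ∈ w, ψ c = [c] := by
  intro w
  induction w with
  | nil => intro _ c hc; simp at hc
  | cons x w ih =>
    intro h c hc
    obtain ⟨y, hy⟩ := List.length_eq_one_iff.1 (h1 x)
    rw [ap_cons, hy, List.singleton_append, List.cons.injEq] at h
    rcases List.mem_cons.1 hc with rfl | hc
    · rw [hy, h.1]
    · exact ih h.2 c hc

theorem len_eq {α β : Type} {ψ : α → List β} (h1 : ∀ c, (ψ c).length = 1) (w : List α) :
    (ap ψ w).length = w.length := by
  induction w with
  | nil => rfl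
  | cons x w ih => rw [ap_cons, List.length_append, h1, ih, List.length_cons]; omega

theorem ident {k : ℕ} {Φ : Fin k → List (Fin k)} {a : Fin k} {m : List (Fin k)}
    {Θ : Fin 3 → List (Fin k)} {ρ : Fin k → List (Fin 3)} (I : Inv k Φ a m Θ ρ)
    {ψ : Fin k → List (Fin k)} (hψ : ClassP' ψ)
    (hL : ∀ w, (∃ v, LX v ∧ w <:+: ap Θ v) → ∃ v, LX v ∧ ap ψ w <:+: ap Θ v)
    (hne : ∀ c, ψ c ≠ []) : ∀ c, ψ c = [c] := by
  have h1 := unbounded I hψ hL hne
  rcases proj_cases I hψ hL with hid | hem
  · intro c
    obtain ⟨x, hx⟩ := I.cov c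
    refine map_fix h1 (Θ x) ?_ c hx
    obtain ⟨P, c₁, hP, hc₁, hPn⟩ := center I (I.pal x) (I.rt x)
    have hψpal : ∀ y, (ψ y).reverse = ψ y := fun y => pal_of_le_one (h1 y).le
    obtain ⟨c₂, hc₂⟩ := List.length_eq_one_iff.1 (h1 c₁)
    have h2 : ap ψ (Θ x) = ap ψ P ++ c₂ :: (ap ψ P).reverse := by
      rw [hP, ap_append, ap_cons, hc₂, apr' hψpal]
      simp
    have h3 : ρ c₂ = [x] := by
      have h4 := hid x
      rw [h2, ap_append, ap_cons] at h4
      have h5 : (ap ρ (ap ψ P).reverse).length = (ap ρ (ap ψ P)).length := by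
        rw [← apr' (fun y => pal_of_le_one (I.rl y)), List.length_reverse]
      have h6 := congrArg List.length h4
      rw [List.length_append, List.length_append, h5, List.length_singleton] at h6
      have h7 : ap ρ (ap ψ P) = [] := List.length_eq_zero_iff.1 (by omega)
      have h8 : ap ρ (ap ψ P).reverse = [] := List.length_eq_zero_iff.1 (by rw [h5, h7]; rfl)
      rw [h7, h8] at h4
      simpa using h4
    obtain ⟨z, hz, s, t, hst⟩ := hL (Θ x) ⟨[x], LX_single x, by rw [ap_cons]; simp⟩
    rw [h2] at hst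
    obtain ⟨A, B, Q, hA, hB, hQ⟩ := locate I h3 z (s ++ ap ψ P) ((ap ψ P).reverse ++ t)
      (by rw [← hst]; simp)
    have h9 : Q.length = P.length := by
      have := congrArg List.length hP
      rw [hQ] at this
      simp only [List.length_append, List.length_cons, List.length_reverse] at this
      omega
    have h10 : ap ψ P = Q := by
      refine (List.append_inj' hA ?_).2
      rw [len_eq h1, h9]
    rw [h2, h10, hQ]
  · exfalso
    have hρΘ : ∀ v, ap ρ (ap Θ v) = v := by
      intro v
      rw [apc, show (fun x => ap ρ (Θ x)) = fun x => [x] from funext I.rt, ap_single]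
    obtain ⟨B, hB⟩ : ∃ B, ∀ x, (Θ x).length ≤ B := by
      refine ⟨∑ x, (Θ x).length, fun x => ?_⟩
      exact Finset.single_le_sum (f := fun x => (Θ x).length) (fun _ _ => Nat.zero_le _)
        (Finset.mem_univ x)
    obtain ⟨t, ht, hcount⟩ := LX_many (2 * B + 1)
    obtain ⟨z, hz, hW⟩ := hL (ap Θ t) ⟨t, ht, List.infix_rfl⟩
    obtain ⟨r, y, s, hWe, hr, hs, -⟩ := fac_split hB z _ hW
    have h2 : ap ρ (ap ψ (ap Θ t)) = [] := by
      rw [apc Θ ψ t, apc]
      exact ap_empty_lof _ hem _
    have h3 := len_eq h1 (ap Θ t)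
    rw [hWe] at h2 h3
    rw [ap_append, ap_append, hρΘ] at h2
    have hy : y = [] := by
      have := (List.append_eq_nil_iff.1 h2).2
      exact (List.append_eq_nil_iff.1 this).1
    subst hy
    obtain ⟨x, hx⟩ := I.cov a
    have h4 := count_ap hx t
    have h5 := hcount x
    have h6 : (ap Θ t).count a ≤ (ap Θ t).length := List.count_le_length
    simp only [List.length_append, ap_nil, List.length_nil] at h3
    omega

end Pool.Y348.CP
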