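import Pool.Agent.Y348.CP.Step

/-!
# Rigidity of the new shifts

A morphism of class P' that maps the language of the new word into itself does not expand it.
-/

namespace Pool.Y348.CP

open Pool.Helper223.CP Pool.Helper223.CP.J19 Pool.Helper223.CP.J20 Pool.Helper223.CP.J21
  Pool.Helper223.CP.Fin1

theorem pal_of_le_one {α : Type} {l : List α} (h : l.length ≤ 1) : l.reverse = l := by
  match l, h with
  | [], _ => rfl
  | [x], _ => rfl

theorem class_transport {k : ℕ} {χ : Fin k → List (Fin k)} (h : ClassP χ)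
    {Θ : Fin 3 → List (Fin k)} {ρ : Fin k → List (Fin 3)} (pal : ∀ x, (Θ x).reverse = Θ x)
    (hne : ∀ x, Θ x ≠ []) (rl : ∀ y, (ρ y).length ≤ 1) :
    ClassP (fun x => ap ρ (ap χ (Θ x))) := by
  have hρ : ∀ y, (ρ y).reverse = ρ y := fun y => pal_of_le_one (rl y)
  obtain ⟨p, hp, hq⟩ := h
  choose q hq1 hq2 using hq
  have hp' : p.reverse = p := hp
  refine ⟨ap ρ p, by unfold IsPalindrome; rw [apr' hρ, hp'], fun x => ?_⟩
  obtain ⟨b, s, hbs⟩ := List.exists_cons_of_ne_nil (hne x)
  have h1 : ∀ t, p ++ ap (fun a => q a ++ p) t = ap χ t ++ p := by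
    intro t
    induction t with
    | nil => simp
    | cons c t ih =>
      rw [ap_cons, ap_cons, List.append_assoc (χ c), ← ih, hq2]
      simp
  have hQ : ap χ (Θ x) = p ++ (q b ++ ap χ s) := by rw [hbs, ap_cons, hq2]; simp
  generalize q b ++ ap χ s = Q at hQ
  have h2 : Q ++ p = ap (fun a => q a ++ p) (Θ x) := by
    have := h1 (Θ x)
    rw [hQ, List.append_assoc] at this
    exact (List.append_cancel_left this).symm
  have h3 : (ap χ (Θ x)).reverse = ap (fun a => q a ++ p) (Θ x) := by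
    rw [apr, pal]
    congr 1
    funext a
    have h4 : (q a).reverse = q a := hq1 a
    rw [hq2, List.reverse_append, hp', h4]
  have h4 : Q.reverse = Q := by
    rw [hQ, List.reverse_append, hp', ← h2] at h3
    exact List.append_cancel_right h3
  refine ⟨ap ρ Q, by unfold IsPalindrome; rw [apr' hρ, h4], ?_⟩
  show ap ρ (ap χ (Θ x)) = ap ρ p ++ ap ρ Q
  rw [hQ, ap_append]

theorem conj_word {α : Type} {ψ χ : α → List α} {w : List α}
    (h : ∀ a, ψ a ++ w = w ++ χ a) (u : List α) : ap ψ u ++ w = w ++ ap χ u := by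
  induction u with
  | nil => simp
  | cons a u ih =>
    rw [ap_cons, ap_cons, List.append_assoc, ih, ← List.append_assoc, h a, List.append_assoc]

theorem conj_transport {k : ℕ} {ψ χ : Fin k → List (Fin k)} (h : Conjugate ψ χ)
    (Θ : Fin 3 → List (Fin k)) (ρ : Fin k → List (Fin 3)) :
    Conjugate (fun x => ap ρ (ap ψ (Θ x))) (fun x => ap ρ (ap χ (Θ x))) := by
  obtain ⟨w, h | h⟩ := h
  · refine ⟨ap ρ w, Or.inl fun x => ?_⟩
    show ap ρ (ap ψ (Θ x)) ++ ap ρ w = ap ρ w ++ ap ρ (ap χ (Θ x))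
    rw [← ap_append, ← ap_append, conj_word h]
  · refine ⟨ap ρ w, Or.inr fun x => ?_⟩
    show ap ρ w ++ ap ρ (ap ψ (Θ x)) = ap ρ (ap χ (Θ x)) ++ ap ρ w
    rw [← ap_append, ← ap_append, conj_word (ψ := χ) (χ := ψ) (fun a => (h a).symm)]

theorem pre_split {α β : Type} {Θ : α → List β} {B : ℕ} (hB : ∀ x, (Θ x).length ≤ B)
    (z : List α) : ∀ P, P <+: ap Θ z → ∃ v s, P = ap Θ v ++ s ∧ s.length ≤ B ∧ v <+: z := by
  induction z with
  | nil =>
    intro P hP
    rw [ap_nil, List.prefix_nil] at hP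
    subst hP
    exact ⟨[], [], rfl, by simp, List.prefix_rfl⟩
  | cons x z ih =>
    rintro P ⟨t, ht⟩
    rw [ap_cons, List.append_eq_append_iff] at ht
    rcases ht with ⟨a', h1, _⟩ | ⟨c', h1, h2⟩
    · refine ⟨[], P, rfl, ?_, List.nil_prefix⟩
      have := hB x
      rw [h1, List.length_append] at this
      omega
    · obtain ⟨v, s, hv, hs, hvz⟩ := ih c' ⟨t, h2.symm⟩
      refine ⟨x :: v, s, ?_, hs, List.cons_prefix_cons.2 ⟨rfl, hvz⟩⟩
      rw [h1, hv, ap_cons, List.append_assoc]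

theorem fac_split {α β : Type} {Θ : α → List β} {B : ℕ} (hB : ∀ x, (Θ x).length ≤ B)
    (z : List α) : ∀ W, W <:+: ap Θ z → ∃ r v s, W = r ++ (ap Θ v ++ s) ∧ r.length ≤ B ∧
      s.length ≤ B ∧ v <:+: z := by
  induction z with
  | nil =>
    intro P hP
    rw [ap_nil, List.infix_nil] at hP
    subst hP
    exact ⟨[], [], [], rfl, by simp, by simp, List.infix_rfl⟩
  | cons x z ih =>
    rintro W ⟨s, t, ht⟩
    rw [ap_cons, List.append_assoc, List.append_eq_append_iff] at ht
    rcases ht with ⟨a', h1, h2⟩ | ⟨c', h1, h2⟩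
    · have ha : a'.length ≤ B := by
        have := hB x
        rw [h1, List.length_append] at this
        omega
      rw [List.append_eq_append_iff] at h2
      rcases h2 with ⟨b', h3, _⟩ | ⟨c', h3, h4⟩
      · refine ⟨W, [], [], by simp, ?_, by simp, List.nil_infix⟩
        rw [h3, List.length_append] at ha
        omega
      · obtain ⟨v, s', hv, hs, hvz⟩ := pre_split hB z c' ⟨t, h4.symm⟩
        refine ⟨a', v, s', by rw [h3, hv], ha, hs, ?_⟩
        exact hvz.isInfix.trans (List.suffix_cons x z).isInfix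
    · obtain ⟨r, v, s', hW, hr, hs, hv⟩ := ih W ⟨c', t, by rw [List.append_assoc]; exact h2.symm⟩
      exact ⟨r, v, s', hW, hr, hs, hv.trans (List.suffix_cons x z).isInfix⟩

theorem len_bound {α β : Type} {f : α → List β} {M : ℕ} (hM : ∀ x, (f x).length ≤ M)
    (w : List α) : (ap f w).length ≤ M * w.length := by
  induction w with
  | nil => simp
  | cons x w ih =>
    rw [ap_cons, List.length_append, List.length_cons, Nat.mul_succ]
    have := hM x
    omega

theorem proj_cases {k : ℕ} {Φ : Fin k → List (Fin k)} {a : Fin k} {m : List (Fin k)}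
    {Θ : Fin 3 → List (Fin k)} {ρ : Fin k → List (Fin 3)} (I : Inv k Φ a m Θ ρ)
    {ψ : Fin k → List (Fin k)} (hψ : ClassP' ψ)
    (hL : ∀ w, (∃ v, LX v ∧ w <:+: ap Θ v) → ∃ v, LX v ∧ ap ψ w <:+: ap Θ v) :
    (∀ x, ap ρ (ap ψ (Θ x)) = [x]) ∨ (∀ x, ap ρ (ap ψ (Θ x)) = []) := by
  have hne : ∀ x, Θ x ≠ [] := by
    intro x h
    have := I.rt x
    rw [h] at this
    simp at this
  have hρΘ : ∀ v, ap ρ (ap Θ v) = v := by
    intro v
    rw [apc, show (fun x => ap ρ (Θ x)) = fun x => [x] from funext I.rt, ap_single]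
  have hΨ : ∀ v, ap ρ (ap ψ (ap Θ v)) = ap (fun x => ap ρ (ap ψ (Θ x))) v := by
    intro v
    rw [apc Θ ψ v, apc]
  have hcl : ClassP' (fun x => ap ρ (ap ψ (Θ x))) := by
    obtain ⟨χ, hχ, hc⟩ := hψ
    exact ⟨_, class_transport hχ I.pal hne I.rl, conj_transport hc Θ ρ⟩
  have hpres : ∀ v, LX v → LX (ap (fun x => ap ρ (ap ψ (Θ x))) v) := by
    intro v hv
    rw [← hΨ]
    obtain ⟨v', hv', h⟩ := hL (ap Θ v) ⟨v, hv, List.infix_rfl⟩
    have := ap_inf ρ h
    rw [hρΘ] at this
    exact LX_infix hv' this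
  by_cases h : ∃ x, (fun x => ap ρ (ap ψ (Θ x))) x ≠ []
  · exact Or.inl (classP'_id hcl hpres h)
  · push Not at h
    exact Or.inr h

theorem bounded {k : ℕ} {Φ : Fin k → List (Fin k)} {a : Fin k} {m : List (Fin k)}
    {Θ : Fin 3 → List (Fin k)} {ρ : Fin k → List (Fin 3)} (I : Inv k Φ a m Θ ρ)
    {ψ : Fin k → List (Fin k)} (hψ : ClassP' ψ)
    (hL : ∀ w, (∃ v, LX v ∧ w <:+: ap Θ v) → ∃ v, LX v ∧ ap ψ w <:+: ap Θ v) :
    ∃ C, ∀ w, (∃ v, LX v ∧ w <:+: ap Θ v) → (ap ψ w).length ≤ w.length + C := by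
  obtain ⟨B, hB⟩ : ∃ B, ∀ x, (Θ x).length ≤ B := by
    refine ⟨∑ x, (Θ x).length, fun x => ?_⟩
    exact Finset.single_le_sum (f := fun x => (Θ x).length) (fun _ _ => Nat.zero_le _)
      (Finset.mem_univ x)
  obtain ⟨M, hM⟩ : ∃ M, ∀ x, (ψ x).length ≤ M := by
    refine ⟨∑ x, (ψ x).length, fun x => ?_⟩
    exact Finset.single_le_sum (f := fun x => (ψ x).length) (fun _ _ => Nat.zero_le _)
      (Finset.mem_univ x)
  have hρΘ : ∀ v, ap ρ (ap Θ v) = v := by
    intro v
    rw [apc, show (fun x => ap ρ (Θ x)) = fun x => [x] from funext I.rt, ap_single]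
  have hΨ : ∀ v, ap ρ (ap ψ (ap Θ v)) = ap (fun x => ap ρ (ap ψ (Θ x))) v := by
    intro v
    rw [apc Θ ψ v, apc]
  have hshort : ∀ v, (ap Θ (ap ρ (ap ψ (ap Θ v)))).length ≤ (ap Θ v).length := by
    intro v
    rw [hΨ]
    rcases proj_cases I hψ hL with h1 | h1
    · rw [show (fun x => ap ρ (ap ψ (Θ x))) = fun x => [x] from funext h1, ap_single]
    · rw [ap_empty_lof _ h1]
      simp
  have hmain : ∀ v, LX v → (ap ψ (ap Θ v)).length ≤ (ap Θ v).length + 2 * B := by
    intro v hv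
    obtain ⟨z, hz, hW⟩ := hL (ap Θ v) ⟨v, hv, List.infix_rfl⟩
    have h0 := hshort v
    obtain ⟨r, y, s, hWe, hr, hs, -⟩ := fac_split hB z _ hW
    have h1 : (ap Θ y).length ≤ (ap Θ (ap ρ (ap ψ (ap Θ v)))).length := by
      rw [hWe]
      simp only [ap_append, hρΘ, List.length_append]
      omega
    rw [hWe] at h1 h0 ⊢
    simp only [List.length_append] at h1 h0 ⊢
    omega
  refine ⟨2 * B + 2 * (M * B), ?_⟩
  rintro w ⟨z, hz, hw⟩
  obtain ⟨r, v, s, hWe, hr, hs, hv⟩ := fac_split hB z w hw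
  have h1 := hmain v (LX_infix hz hv)
  have h2 := (len_bound hM r).trans (Nat.mul_le_mul_left M hr)
  have h3 := (len_bound hM s).trans (Nat.mul_le_mul_left M hs)
  rw [hWe]
  simp only [ap_append, List.length_append]
  omega

theorem expand {k : ℕ} {ψ : Fin k → List (Fin k)} (hne : ∀ c, ψ c ≠ []) {c₀ : Fin k}
    (h2 : 2 ≤ (ψ c₀).length) (w : List (Fin k)) : w.length + w.count c₀ ≤ (ap ψ w).length := by
  induction w with
  | nil => simp
  | cons x w ih =>
    rw [ap_cons, List.length_append, List.length_cons, List.count_cons]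
    have h1 : 0 < (ψ x).length := List.length_pos_iff.2 (hne x)
    by_cases h : x = c₀
    · subst h
      simp
      omega
    · simp [h]
      omega

theorem count_ap {α β : Type} [DecidableEq α] [DecidableEq β] {f : α → List β} {x : α} {b : β}
    (h : b ∈ f x) (w : List α) : w.count x ≤ (ap f w).count b := by
  induction w with
  | nil => simp
  | cons y w ih =>
    rw [ap_cons, List.count_append, List.count_cons]
    by_cases hy : y = x
    · subst hy
      have := List.count_pos_iff.2 h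
      simp
      omega
    · simp [hy]
      omega

theorem iter_nil {α : Type} (f : α → List α) (n : ℕ) : (ap f)^[n] [] = [] := by
  induction n with
  | zero => rfl
  | succ n ih => rw [Function.iterate_succ_apply, ap_nil, ih]

theorem prim_expand {k : ℕ} (hk : 2 ≤ k) {ψ : Fin k → List (Fin k)} (h : IsPrimitive ψ) :
    (∀ c, ψ c ≠ []) ∧ ∃ c₀, 2 ≤ (ψ c₀).length := by
  obtain ⟨K, hK⟩ := h
  have h01 : (⟨0, by omega⟩ : Fin k) ≠ ⟨1, by omega⟩ := by
    intro h
    simp at h
  have hne : ∀ c, ψ c ≠ [] := by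
    intro c hc
    cases K with
    | zero =>
      have h1 := hK ⟨0, by omega⟩ ⟨1, by omega⟩
      simp at h1
    | succ K =>
      have h1 := hK c c
      rw [Function.iterate_succ_apply, ap_cons, hc, ap_nil, List.append_nil, iter_nil] at h1
      simp at h1
  refine ⟨hne, ?_⟩
  by_contra hcon
  push Not at hcon
  have h1 : ∀ c, (ψ c).length = 1 := by
    intro c
    have := hcon c
    have := List.length_pos_iff.2 (hne c)
    omega
  have h2 : ∀ n (w : List (Fin k)), ((ap ψ)^[n] w).length = w.length := by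
    intro n
    induction n with
    | zero => intro w; rfl
    | succ n ih =>
      intro w
      rw [Function.iterate_succ_apply, ih]
      induction w with
      | nil => rfl
      | cons x w ihw => rw [ap_cons, List.length_append, ihw, h1, List.length_cons]; omega
  have h3 := h2 K [⟨0, by omega⟩]
  obtain ⟨x, hx⟩ := List.length_eq_one_iff.1 h3
  have h4 := hK ⟨0, by omega⟩ ⟨0, by omega⟩
  have h5 := hK ⟨0, by omega⟩ ⟨1, by omega⟩
  rw [hx, List.mem_singleton] at h4 h5
  exact h01 (h4.trans h5.symm)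

end Pool.Y348.CP
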