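import Pool.Agent.Y348.CP.Ident

/-!
# Morphisms of class P' with a fixed point of the same language act as shifts
-/

namespace Pool.Y348.CP

open Pool.Helper223.CP Pool.Helper223.CP.J1b Pool.Helper223.CP.J17b Pool.Helper223.CP.J19
  Pool.Helper223.CP.J20 Pool.Helper223.CP.J21 Pool.Helper223.CP.Fin1

theorem uniq {k : ℕ} {ρ : Fin k → List (Fin 3)} {X R P R' : List (Fin k)} {c c' : Fin k}
    (h : X ++ c :: R = P ++ c' :: R') (hX : ap ρ X = []) (hP : ap ρ P = []) (hc : ρ c ≠ [])
    (hc' : ρ c' ≠ []) : X = P ∧ c = c' ∧ R = R' := by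
  rw [List.append_eq_append_iff] at h
  rcases h with ⟨b, h5, h6⟩ | ⟨b, h5, h6⟩
  · cases b with
    | nil =>
      rw [List.nil_append, List.cons.injEq] at h6
      exact ⟨by simpa using h5.symm, h6.1, h6.2⟩
    | cons f b =>
      exfalso
      rw [List.cons_append, List.cons.injEq] at h6
      exact hc (ap_eq_nil hP (c := c) (by rw [h5, h6.1]; simp))
  · cases b with
    | nil =>
      rw [List.nil_append, List.cons.injEq] at h6
      exact ⟨by simpa using h5, h6.1.symm, h6.2.symm⟩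
    | cons f b =>
      exfalso
      rw [List.cons_append, List.cons.injEq] at h6
      exact hc' (ap_eq_nil hX (c := c') (by rw [h5, h6.1]; simp))

theorem split_one {k : ℕ} {ρ : Fin k → List (Fin 3)} (rl : ∀ y, (ρ y).length ≤ 1) {x : Fin 3}
    (W : List (Fin k)) (h : ap ρ W = [x]) :
    ∃ α c β, W = α ++ c :: β ∧ ρ c = [x] ∧ ap ρ α = [] ∧ ap ρ β = [] := by
  induction W with
  | nil => simp at h
  | cons y W ih =>
    rw [ap_cons] at h
    by_cases hy : ρ y = []
    · rw [hy, List.nil_append] at h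
      obtain ⟨α, c, β, h1, h2, h3, h4⟩ := ih h
      exact ⟨y :: α, c, β, by rw [h1]; rfl, h2, by rw [ap_cons, hy, h3]; rfl, h4⟩
    · obtain ⟨b, s, hb⟩ := List.exists_cons_of_ne_nil hy
      have h1 := rl y
      rw [hb, List.length_cons] at h1
      have hs : s = [] := List.length_eq_zero_iff.1 (by omega)
      subst hs
      rw [hb, List.singleton_append, List.cons.injEq] at h
      exact ⟨[], y, W, rfl, by rw [hb, h.1], rfl, h.2⟩

theorem locate2 {k : ℕ} {Φ : Fin k → List (Fin k)} {a : Fin k} {m : List (Fin k)}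
    {Θ : Fin 3 → List (Fin k)} {ρ : Fin k → List (Fin 3)} (I : Inv k Φ a m Θ ρ)
    {P : Fin 3 → List (Fin k)} {C : Fin 3 → Fin k} (hP : ∀ x, Θ x = P x ++ C x :: (P x).reverse)
    (hC : ∀ x, ρ (C x) = [x]) (hPn : ∀ x, ap ρ (P x) = []) {c : Fin k}
    {x : Fin 3} (hc : ρ c = [x]) (z : List (Fin 3)) : ∀ L R, L ++ c :: R = ap Θ z →
      c = C x ∧ ∃ z2, R = (P x).reverse ++ ap Θ z2 := by
  have hPr : ∀ x, ap ρ (P x).reverse = [] := by
    intro x
    rw [← apr' (fun y => pal_of_le_one (I.rl y)), hPn]; rfl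
  induction z with
  | nil =>
    intro L R h
    rw [ap_nil] at h
    simp at h
  | cons y z ih =>
    intro L R h
    rw [ap_cons, List.append_eq_append_iff] at h
    rcases h with ⟨a', h1, h2⟩ | ⟨c', h1, h2⟩
    · cases a' with
      | nil => exact ih [] R (by simpa using h2)
      | cons e a'' =>
        rw [List.cons_append, List.cons.injEq] at h2
        obtain ⟨h2, h3⟩ := h2
        subst h2
        have hL : ap ρ L = [] := by
          have h4 := I.rt y
          rw [h1, ap_append, ap_cons, hc] at h4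
          have h5 := congrArg List.length h4
          simp only [List.length_append, List.length_cons, List.length_nil] at h5
          exact List.length_eq_zero_iff.1 (by omega)
        rw [hP] at h1
        obtain ⟨h4, h5, h6⟩ := uniq h1.symm hL (hPn y) (by rw [hc]; simp) (by rw [hC]; simp)
        have hxy : x = y := by
          have h7 := hC y
          rw [← h5, hc] at h7
          simpa using h7
        subst hxy
        exact ⟨h5, z, by rw [h3, h6]⟩
    · exact ih c' R h2.symm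

theorem gap {k : ℕ} {Φ : Fin k → List (Fin k)} {a : Fin k} {m : List (Fin k)}
    {Θ : Fin 3 → List (Fin k)} {ρ : Fin k → List (Fin 3)} (I : Inv k Φ a m Θ ρ)
    {P : Fin 3 → List (Fin k)} {C : Fin 3 → Fin k} (hP : ∀ x, Θ x = P x ++ C x :: (P x).reverse)
    (hC : ∀ x, ρ (C x) = [x]) (hPn : ∀ x, ap ρ (P x) = [])
    {ψ : Fin k → List (Fin k)}
    (hL : ∀ w, (∃ v, LX v ∧ w <:+: ap Θ v) → ∃ v, LX v ∧ ap ψ w <:+: ap Θ v)
    {α β : Fin 3 → List (Fin k)} {D : Fin 3 → Fin k}
    (hD : ∀ x, ap ψ (Θ x) = α x ++ D x :: β x) (hDc : ∀ x, ρ (D x) = [x])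
    (hα : ∀ x, ap ρ (α x) = []) (hβ : ∀ x, ap ρ (β x) = []) {x y : Fin 3} (hxy : LX [x, y]) :
    D x = C x ∧ β x ++ α y = (P x).reverse ++ P y := by
  have hPr : ∀ x, ap ρ (P x).reverse = [] := by
    intro x
    rw [← apr' (fun y => pal_of_le_one (I.rl y)), hPn]; rfl
  obtain ⟨z, -, s, t, hst⟩ := hL (ap Θ [x, y]) ⟨[x, y], hxy, List.infix_rfl⟩
  have h0 : (s ++ α x) ++ D x :: (β x ++ (α y ++ D y :: (β y ++ t))) = ap Θ z := by
    rw [← hst, ap_cons, ap_cons, ap_nil, List.append_nil, ap_append, hD, hD]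
    simp
  obtain ⟨h1, z2, h2⟩ := locate2 I hP hC hPn (hDc x) z _ _ h0
  refine ⟨h1, ?_⟩
  cases z2 with
  | nil =>
    exfalso
    rw [ap_nil, List.append_nil] at h2
    have h3 := hPr x
    rw [← h2, ap_append, ap_append, ap_cons, hDc] at h3
    simp at h3
  | cons y' z3 =>
    rw [ap_cons, hP] at h2
    have h3 : (β x ++ α y) ++ D y :: (β y ++ t) =
        ((P x).reverse ++ P y') ++ C y' :: ((P y').reverse ++ ap Θ z3) := by
      simpa using h2
    obtain ⟨h4, h5, -⟩ := uniq h3 (by rw [ap_append, hα, hβ]; rfl)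
      (by rw [ap_append, hPn, hPr]; rfl) (by rw [hDc]; simp) (by rw [hC]; simp)
    have h6 : y = y' := by
      have h7 := hC y'
      rw [← h5, hDc] at h7
      simpa using h7
    rw [h4, h6]

theorem LX00 : LX [0, 0] := ⟨[false, false], ⟨2, by decide⟩, by decide⟩
theorem LX01 : LX [0, 1] := ⟨[false], ⟨0, by decide⟩, by decide⟩
theorem LX10 : LX [1, 0] := ⟨[false], ⟨0, by decide⟩, by decide⟩
theorem LX02 : LX [0, 2] := ⟨[false, true], ⟨1, by decide⟩, by decide⟩
theorem LX20 : LX [2, 0] := ⟨[true], ⟨1, by decide⟩, by decide⟩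

theorem LX0 (y : Fin 3) : LX [0, y] := by
  fin_cases y
  · exact LX00
  · exact LX01
  · exact LX02

theorem LX'0 (y : Fin 3) : LX [y, 0] := by
  fin_cases y
  · exact LX00
  · exact LX10
  · exact LX20

/-- the morphism `ψ ∘ Θ` is conjugate to `Θ` -/
theorem shift {k : ℕ} {Φ : Fin k → List (Fin k)} {a : Fin k} {m : List (Fin k)}
    {Θ : Fin 3 → List (Fin k)} {ρ : Fin k → List (Fin 3)} (I : Inv k Φ a m Θ ρ)
    {ψ : Fin k → List (Fin k)} (hid : ∀ x, ap ρ (ap ψ (Θ x)) = [x])
    (hL : ∀ w, (∃ v, LX v ∧ w <:+: ap Θ v) → ∃ v, LX v ∧ ap ψ w <:+: ap Θ v) :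
    ∃ z, (∀ x, z ++ ap ψ (Θ x) = Θ x ++ z) ∨ (∀ x, ap ψ (Θ x) ++ z = z ++ Θ x) := by
  have hcen := fun x => center I (I.pal x) (I.rt x)
  choose P C hP hC hPn using hcen
  have hsp := fun x => split_one I.rl (ap ψ (Θ x)) (hid x)
  choose α D β hD hDc hα hβ using hsp
  have hg : ∀ {x y}, LX [x, y] → D x = C x ∧ β x ++ α y = (P x).reverse ++ P y := fun h =>
    gap I hP hC hPn hL hD hDc hα hβ h
  have h00 := (hg LX00).2
  rw [List.append_eq_append_iff] at h00
  rcases h00 with ⟨z, h1, h2⟩ | ⟨z, h1, h2⟩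
  · -- `(P 0).reverse = β 0 ++ z`, `α 0 = z ++ P 0`
    refine ⟨z, Or.inr fun x => ?_⟩
    have h3 := (hg (LX'0 x)).2
    rw [h2, ← List.append_assoc] at h3
    have h4 : β x ++ z = (P x).reverse := List.append_cancel_right h3
    have h5 := (hg (LX0 x)).2
    rw [h1, List.append_assoc] at h5
    have h6 : α x = z ++ P x := List.append_cancel_left h5
    rw [hD, h6, (hg (LX'0 x)).1, hP, ← h4]
    simp
  · -- `β 0 = (P 0).reverse ++ z`, `P 0 = z ++ α 0`
    refine ⟨z, Or.inl fun x => ?_⟩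
    have h3 := (hg (LX'0 x)).2
    rw [h2, ← List.append_assoc] at h3
    have h4 : β x = (P x).reverse ++ z := List.append_cancel_right h3
    have h5 := (hg (LX0 x)).2
    rw [h1, List.append_assoc] at h5
    have h6 : z ++ α x = P x := List.append_cancel_left h5
    rw [hD, h4, (hg (LX'0 x)).1, hP, ← h6]
    simp

theorem shift_word {α β : Type} {f g : α → List β} {z : List β}
    (h : ∀ x, z ++ f x = g x ++ z) (v : List α) : z ++ ap f v = ap g v ++ z := by
  induction v with
  | nil => simp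
  | cons x v ih =>
    rw [ap_cons, ap_cons, ← List.append_assoc, h, List.append_assoc, ih, List.append_assoc]

end Pool.Y348.CP
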