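import Pool.Agent.Helper223.CP.Conj
import Pool.Agent.Helper223.CP.Fixed

/-!
# Counterexamples to the class P conjecture over larger alphabets

One letter at a time: a letter `a` with `Φ(a) = a m a` is split into `a d a` with a new letter `d`.
-/

namespace Pool.Y348.CP

open Pool.Helper223.CP Pool.Helper223.CP.J19 Pool.Helper223.CP.J20 Pool.Helper223.CP.J21
  Pool.Helper223.CP.Fin1

theorem apc {α β γ : Type} (f : α → List β) (g : β → List γ) (w : List α) :
    ap g (ap f w) = ap (fun x => ap g (f x)) w := by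
  induction w with
  | nil => rfl
  | cons x w ih => rw [ap_cons, ap_append, ih, ap_cons]

theorem apr {α β : Type} (f : α → List β) (w : List α) :
    (ap f w).reverse = ap (fun x => (f x).reverse) w.reverse := by
  induction w with
  | nil => rfl
  | cons x w ih =>
    rw [ap_cons, List.reverse_append, ih, List.reverse_cons, ap_append]
    simp

theorem apr' {α β : Type} {f : α → List β} (hf : ∀ x, (f x).reverse = f x) (w : List α) :
    (ap f w).reverse = ap f w.reverse := by
  rw [apr, show (fun x => (f x).reverse) = f from funext hf]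

theorem mem_ap {α β : Type} {f : α → List β} {w : List α} {b : β} {x : α} (hx : x ∈ w)
    (hb : b ∈ f x) : b ∈ ap f w := List.mem_flatMap.2 ⟨x, hx, hb⟩

theorem ap_ne {α β : Type} {f : α → List β} (hf : ∀ x, f x ≠ []) {w : List α} (hw : w ≠ []) :
    ap f w ≠ [] := by
  obtain ⟨b, s, rfl⟩ := List.exists_cons_of_ne_nil hw
  rw [ap_cons]
  intro h
  exact hf b (List.append_eq_nil_iff.1 h).1

theorem ap_inf {α β : Type} (f : α → List β) {v w : List α} (h : v <:+: w) :
    ap f v <:+: ap f w := ap_infix_lof f h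

theorem iter_comm {α β : Type} {Φ : α → List α} {Φ' : β → List β} {θ : α → List β}
    (h : ∀ w, ap Φ' (ap θ w) = ap θ (ap Φ w)) (n : ℕ) (w : List α) :
    (ap Φ')^[n] (ap θ w) = ap θ ((ap Φ)^[n] w) := by
  induction n generalizing w with
  | zero => rfl
  | succ n ih => rw [Function.iterate_succ_apply, h, ih, Function.iterate_succ_apply]

theorem iter_append {α : Type} (Φ : α → List α) (n : ℕ) (v w : List α) :
    (ap Φ)^[n] (v ++ w) = (ap Φ)^[n] v ++ (ap Φ)^[n] w := by
  induction n generalizing v w with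
  | zero => rfl
  | succ n ih =>
    rw [Function.iterate_succ_apply, Function.iterate_succ_apply, Function.iterate_succ_apply,
      ap_append, ih]

/-- the data carried along the induction on the size of the alphabet -/
structure Inv (k : ℕ) (Φ : Fin k → List (Fin k)) (a : Fin k) (m : List (Fin k))
    (Θ : Fin 3 → List (Fin k)) (ρ : Fin k → List (Fin 3)) : Prop where
  im : Φ a = a :: (m ++ [a])
  mne : m ≠ []
  ne : ∀ b, Φ b ≠ []
  prim : IsPrimitive Φ
  pal : ∀ x, (Θ x).reverse = Θ x
  rl : ∀ y, (ρ y).length ≤ 1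
  rt : ∀ x, ap ρ (Θ x) = [x]
  lang : ∀ w, (∃ n, w <:+: (ap Φ)^[n] [a]) ↔ ∃ v, LX v ∧ w <:+: ap Θ v
  cov : ∀ c, ∃ x, c ∈ Θ x

theorem ap_single {α : Type} (w : List α) : ap (fun x => [x]) w = w := by
  induction w with
  | nil => rfl
  | cons x w ih => rw [ap_cons, ih]; rfl

theorem inv_base : Inv 3 phi 0 [1] (fun x => [x]) (fun x => [x]) where
  im := rfl
  mne := by simp
  ne := by intro b; fin_cases b <;> simp [phi]
  prim := phi_primitive
  pal := fun x => rfl
  rl := fun x => by simp
  rt := fun x => rfl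
  lang := by
    intro w
    rw [phi_lang]
    constructor
    · intro h
      exact ⟨w, h, by rw [ap_single]⟩
    · rintro ⟨v, hv, hw⟩
      rw [ap_single] at hw
      exact LX_infix hv hw
  cov := fun c => ⟨c, by simp⟩

/-- the splitting of the letter `a` -/
def th {k : ℕ} (a : Fin k) (y : Fin k) : List (Fin (k + 1)) :=
  if y = a then [a.castSucc, Fin.last k, a.castSucc] else [y.castSucc]

/-- the new morphism -/
def ph {k : ℕ} (Φ : Fin k → List (Fin k)) (a : Fin k) (m : List (Fin k)) (c : Fin (k + 1)) :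
    List (Fin (k + 1)) :=
  Fin.lastCases (motive := fun _ => List (Fin (k + 1))) (ap (th a) m)
    (fun y => if y = a then th a a else ap (th a) (Φ y)) c

/-- the new left inverse -/
def rh {k : ℕ} (ρ : Fin k → List (Fin 3)) (a : Fin k) (c : Fin (k + 1)) : List (Fin 3) :=
  Fin.lastCases (motive := fun _ => List (Fin 3)) (ρ a) (fun y => if y = a then [] else ρ y) c

theorem th_a {k : ℕ} (a : Fin k) : th a a = [a.castSucc, Fin.last k, a.castSucc] := by simp [th]

theorem th_ne {k : ℕ} {a y : Fin k} (h : y ≠ a) : th a y = [y.castSucc] := by simp [th, h]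

theorem ph_last {k : ℕ} (Φ : Fin k → List (Fin k)) (a : Fin k) (m : List (Fin k)) :
    ph Φ a m (Fin.last k) = ap (th a) m := by simp [ph]

theorem ph_a {k : ℕ} (Φ : Fin k → List (Fin k)) (a : Fin k) (m : List (Fin k)) :
    ph Φ a m a.castSucc = th a a := by simp [ph]

theorem ph_ne {k : ℕ} (Φ : Fin k → List (Fin k)) {a y : Fin k} (m : List (Fin k)) (h : y ≠ a) :
    ph Φ a m y.castSucc = ap (th a) (Φ y) := by simp [ph, h]

theorem rh_last {k : ℕ} (ρ : Fin k → List (Fin 3)) (a : Fin k) :
    rh ρ a (Fin.last k) = ρ a := by simp [rh]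

theorem rh_a {k : ℕ} (ρ : Fin k → List (Fin 3)) (a : Fin k) :
    rh ρ a a.castSucc = [] := by simp [rh]

theorem rh_ne {k : ℕ} (ρ : Fin k → List (Fin 3)) {a y : Fin k} (h : y ≠ a) :
    rh ρ a y.castSucc = ρ y := by simp [rh, h]

theorem th_nonempty {k : ℕ} (a y : Fin k) : th a y ≠ [] := by
  unfold th
  split <;> simp

theorem th_pal {k : ℕ} (a y : Fin k) : (th a y).reverse = th a y := by
  unfold th
  split <;> simp

theorem th_mem {k : ℕ} (a y : Fin k) : y.castSucc ∈ th a y := by
  by_cases h : y = a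
  · subst h; simp [th_a]
  · simp [th_ne h]

theorem inv_step {k : ℕ} {Φ : Fin k → List (Fin k)} {a : Fin k} {m : List (Fin k)}
    {Θ : Fin 3 → List (Fin k)} {ρ : Fin k → List (Fin 3)} (I : Inv k Φ a m Θ ρ) :
    Inv (k + 1) (ph Φ a m) a.castSucc [Fin.last k] (fun x => ap (th a) (Θ x)) (rh ρ a) := by
  have hcomm : ∀ w, ap (ph Φ a m) (ap (th a) w) = ap (th a) (ap Φ w) := by
    intro w
    induction w with
    | nil => rfl
    | cons y w ih =>
      rw [ap_cons, ap_append, ih, ap_cons, ap_append]
      congr 1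
      by_cases h : y = a
      · subst h
        rw [I.im, th_a, ap_cons, ap_cons, ap_cons, ap_cons, ap_append, ph_a, ph_last, ap_cons]
        simp
      · rw [th_ne h, ap_cons, ph_ne Φ m h]
        simp
  have hiter : ∀ n, (ap (ph Φ a m))^[n + 1] [a.castSucc] = ap (th a) ((ap Φ)^[n] [a]) := by
    intro n
    rw [Function.iterate_succ_apply, ← iter_comm hcomm]
    congr 1
    rw [ap_cons, ph_a]
    simp
  have hthw : ∀ c, ∃ w, w ≠ [] ∧ ph Φ a m c = ap (th a) w := by
    intro c
    induction c using Fin.lastCases with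
    | last => exact ⟨m, I.mne, ph_last Φ a m⟩
    | cast y =>
      by_cases h : y = a
      · subst h
        exact ⟨[y], by simp, by rw [ph_a, ap_cons]; simp⟩
      · exact ⟨Φ y, I.ne y, ph_ne Φ m h⟩
  refine ⟨?_, by simp, ?_, ?_, ?_, ?_, ?_, ?_, ?_⟩
  · rw [ph_a, th_a]; rfl
  · intro c
    obtain ⟨w, hw, h⟩ := hthw c
    rw [h]
    exact ap_ne (th_nonempty a) hw
  · obtain ⟨K, hK⟩ := I.prim
    refine ⟨K + 1, fun c b => ?_⟩
    obtain ⟨w, hw, h⟩ := hthw c
    rw [Function.iterate_succ_apply, ap_cons, h, ap_nil, List.append_nil, iter_comm hcomm]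
    obtain ⟨y, s, rfl⟩ := List.exists_cons_of_ne_nil hw
    have h1 : ∀ z, z ∈ (ap Φ)^[K] (y :: s) := by
      intro z
      rw [show y :: s = [y] ++ s from rfl, iter_append]
      exact List.mem_append_left _ (hK y z)
    induction b using Fin.lastCases with
    | last => exact mem_ap (h1 a) (by simp [th_a])
    | cast z => exact mem_ap (h1 z) (th_mem a z)
  · intro x
    show (ap (th a) (Θ x)).reverse = _
    rw [apr' (th_pal a), I.pal]
  · intro c
    induction c using Fin.lastCases with
    | last => rw [rh_last]; exact I.rl a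
    | cast y =>
      by_cases h : y = a
      · subst h
        rw [rh_a]; simp
      · rw [rh_ne ρ h]; exact I.rl y
  · intro x
    show ap (rh ρ a) (ap (th a) (Θ x)) = [x]
    rw [apc, ← I.rt x]
    congr 1
    funext y
    by_cases h : y = a
    · subst h
      rw [th_a, ap_cons, ap_cons, ap_cons, rh_a, rh_last]
      simp
    · rw [th_ne h, ap_cons, rh_ne ρ h]
      simp
  · intro w
    constructor
    · rintro ⟨n, hn⟩
      have h1 : ∃ n, w <:+: (ap (ph Φ a m))^[n + 1] [a.castSucc] := by
        cases n with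
        | zero =>
          refine ⟨0, hn.trans ?_⟩
          rw [hiter]
          show [a.castSucc] <:+: ap (th a) [a]
          rw [ap_cons, th_a]
          exact ⟨[], [Fin.last k, a.castSucc], by simp⟩
        | succ n => exact ⟨n, hn⟩
      obtain ⟨n, hn⟩ := h1
      rw [hiter] at hn
      obtain ⟨v, hv, hw⟩ := (I.lang _).1 ⟨n, List.infix_rfl⟩
      refine ⟨v, hv, hn.trans ?_⟩
      rw [← apc]
      exact ap_inf _ hw
    · rintro ⟨v, hv, hw⟩
      obtain ⟨n, hn⟩ := (I.lang (ap Θ v)).2 ⟨v, hv, List.infix_rfl⟩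
      refine ⟨n + 1, hw.trans ?_⟩
      rw [hiter, ← apc]
      exact ap_inf _ hn
  · intro c
    induction c using Fin.lastCases with
    | last =>
      obtain ⟨x, hx⟩ := I.cov a
      exact ⟨x, mem_ap hx (by simp [th_a])⟩
    | cast y =>
      obtain ⟨x, hx⟩ := I.cov y
      exact ⟨x, mem_ap hx (th_mem a y)⟩

theorem inv_all (k : ℕ) (hk : 3 ≤ k) : ∃ Φ a m Θ ρ, Inv k Φ a m Θ ρ := by
  induction k, hk using Nat.le_induction with
  | base => exact ⟨_, _, _, _, _, inv_base⟩
  | succ k _ ih =>
    obtain ⟨Φ, a, m, Θ, ρ, I⟩ := ih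
    exact ⟨_, _, _, _, _, inv_step I⟩

end Pool.Y348.CP
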