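import Pool.Agent.Y348.CP.Shift

/-!
# The fixed point is a concatenation of blocks
-/

namespace Pool.Y348.CP

open Pool.Helper223.CP Pool.Helper223.CP.J1b Pool.Helper223.CP.J17b Pool.Helper223.CP.J19
  Pool.Helper223.CP.J20 Pool.Helper223.CP.J21 Pool.Helper223.CP.Fin1

theorem exists_fixed' {α : Type} (φ : α → List α) (a : α) (r : List α) (h : φ a = a :: r)
    (hr : r ≠ []) (hne : ∀ b, φ b ≠ []) :
    ∃ u : ℕ → α, IsFixedPoint φ u ∧ (∀ w, w ∈ language u ↔ ∃ n, w <:+: (ap φ)^[n] [a]) ∧
      ∀ n, n ≤ ((ap φ)^[n] [a]).length ∧ (ap φ)^[n] [a] = pref u ((ap φ)^[n] [a]).length := by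
  have hstart : ∀ n, ∃ w, (ap φ)^[n] [a] = a :: w := by
    intro n
    induction n with
    | zero => exact ⟨[], rfl⟩
    | succ n ih =>
      obtain ⟨w, hw⟩ := ih
      rw [Function.iterate_succ_apply', hw, ap_cons, h]
      exact ⟨r ++ ap φ w, rfl⟩
  have hstep : ∀ n, (ap φ)^[n] [a] <+: (ap φ)^[n + 1] [a] := by
    intro n
    induction n with
    | zero =>
      refine ⟨r, ?_⟩
      simp [h]
    | succ n ih =>
      rw [Function.iterate_succ_apply', Function.iterate_succ_apply' (ap φ) (n + 1)]
      exact fx_prefix φ ih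
  have hmono : ∀ m n, m ≤ n → (ap φ)^[m] [a] <+: (ap φ)^[n] [a] := by
    intro m n hmn
    induction n, hmn using Nat.le_induction with
    | base => exact List.prefix_refl _
    | succ n _ ih => exact ih.trans (hstep n)
  have hlen : ∀ n, n + 1 ≤ ((ap φ)^[n] [a]).length := by
    intro n
    induction n with
    | zero => simp
    | succ n ih =>
      obtain ⟨w, hw⟩ := hstart n
      rw [Function.iterate_succ_apply', hw, ap_cons, h, List.length_append, List.length_cons]
      rw [hw, List.length_cons] at ih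
      have h1 : 0 < r.length := List.length_pos_iff.2 hr
      have h2 := fx_length φ hne w
      omega
  let u : ℕ → α := fun n => ((ap φ)^[n] [a]).getD n a
  have hu : ∀ k i, i < ((ap φ)^[k] [a]).length → ((ap φ)^[k] [a]).getD i a = u i := by
    intro k i hi
    rcases le_total i k with hik | hki
    · exact fx_getD (hmono i k hik) (by have := hlen i; omega) a
    · exact (fx_getD (hmono k i hki) hi a).symm
  have hpref : ∀ k m, m ≤ ((ap φ)^[k] [a]).length → pref u m = ((ap φ)^[k] [a]).take m := by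
    intro k m hm
    apply List.ext_getElem
    · simp [pref, hm]
    · intro i h1 h2
      have hi : i < m := by simpa [pref] using h1
      have hi2 : i < ((ap φ)^[k] [a]).length := by omega
      have := hu k i hi2
      rw [List.getD_eq_getElem _ _ hi2] at this
      simp only [pref, List.getElem_map, List.getElem_range, List.getElem_take]
      exact this.symm
  have hpl : ∀ m, (pref u m).length = m := by
    intro m
    simp [pref]
  refine ⟨u, ⟨?_, ?_⟩, ?_, ?_⟩
  · intro n
    have h1 : pref u n <+: (ap φ)^[n] [a] := by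
      rw [hpref n n (by have := hlen n; omega)]
      exact List.take_prefix _ _
    have h2 : ap φ (pref u n) <+: (ap φ)^[n + 1] [a] := by
      rw [Function.iterate_succ_apply']
      exact fx_prefix φ h1
    rw [hpref (n + 1) _ h2.length_le]
    exact List.prefix_iff_eq_take.1 h2
  · intro m
    refine ⟨m, ?_⟩
    have := fx_length φ hne (pref u m)
    rw [hpl] at this
    exact this
  · intro w
    constructor
    · rintro ⟨n, hn⟩
      refine ⟨n, hn.trans ?_⟩
      rw [hpref n n (by have := hlen n; omega)]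
      exact (List.take_prefix _ _).isInfix
    · rintro ⟨n, hn⟩
      refine ⟨((ap φ)^[n] [a]).length, ?_⟩
      rw [hpref n _ le_rfl, List.take_length]
      exact hn
  · intro n
    refine ⟨by have := hlen n; omega, ?_⟩
    rw [hpref n _ le_rfl, List.take_length]

/-- all large iterates of the start letter are concatenations of blocks -/
def Blocks {k : ℕ} (Φ : Fin k → List (Fin k)) (a : Fin k) (Θ : Fin 3 → List (Fin k)) : Prop :=
  ∃ N, ∀ n, ∃ v, (ap Φ)^[n + N] [a] = ap Θ v

theorem blocks_base : Blocks phi 0 (fun x => [x]) := ⟨0, fun n => ⟨_, (ap_single _).symm⟩⟩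

theorem blocks_step {k : ℕ} {Φ : Fin k → List (Fin k)} {a : Fin k} {m : List (Fin k)}
    {Θ : Fin 3 → List (Fin k)} {ρ : Fin k → List (Fin 3)} (I : Inv k Φ a m Θ ρ)
    (J : Blocks Φ a Θ) :
    Blocks (ph Φ a m) a.castSucc (fun x => ap (th a) (Θ x)) := by
  have hcomm : ∀ w, ap (ph Φ a m) (ap (th a) w) = ap (th a) (ap Φ w) := by
    intro w
    induction w with
    | nil => rfl
    | cons y w ih =>
      rw [ap_cons, ap_append, ih, ap_cons, ap_append]
      congr 1
      by_cases h : y = a
      · subst h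
        rw [I.im, th_a, ap_cons, ap_cons, ap_cons, ap_cons, ap_append, ph_a, ph_last, ap_cons]
        simp
      · rw [th_ne h, ap_cons, ph_ne Φ m h]
        simp
  have hiter : ∀ n, (ap (ph Φ a m))^[n + 1] [a.castSucc] = ap (th a) ((ap Φ)^[n] [a]) := by
    intro n
    rw [Function.iterate_succ_apply, ← iter_comm hcomm]
    congr 1
    rw [ap_cons, ph_a]
    simp
  obtain ⟨N, hN⟩ := J
  refine ⟨N + 1, fun n => ?_⟩
  obtain ⟨v, hv⟩ := hN n
  refine ⟨v, ?_⟩
  rw [← add_assoc, hiter, hv, apc]

theorem inv_all' (k : ℕ) (hk : 3 ≤ k) : ∃ Φ a m Θ ρ, Inv k Φ a m Θ ρ ∧ Blocks Φ a Θ := by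
  induction k, hk using Nat.le_induction with
  | base => exact ⟨_, _, _, _, _, inv_base, blocks_base⟩
  | succ k _ ih =>
    obtain ⟨Φ, a, m, Θ, ρ, I, J⟩ := ih
    exact ⟨_, _, _, _, _, inv_step I, blocks_step I J⟩

theorem empty_bounded {k : ℕ} {Φ : Fin k → List (Fin k)} {a : Fin k} {m : List (Fin k)}
    {Θ : Fin 3 → List (Fin k)} {ρ : Fin k → List (Fin 3)} (I : Inv k Φ a m Θ ρ)
    {ψ : Fin k → List (Fin k)}
    (hL : ∀ w, (∃ v, LX v ∧ w <:+: ap Θ v) → ∃ v, LX v ∧ ap ψ w <:+: ap Θ v)
    (hem : ∀ x, ap ρ (ap ψ (Θ x)) = []) :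
    ∃ K, ∀ w, (∃ v, LX v ∧ w <:+: ap Θ v) → (ap ψ w).length ≤ K := by
  have hρΘ : ∀ v, ap ρ (ap Θ v) = v := by
    intro v
    rw [apc, show (fun x => ap ρ (Θ x)) = fun x => [x] from funext I.rt, ap_single]
  obtain ⟨B, hB⟩ : ∃ B, ∀ x, (Θ x).length ≤ B := by
    refine ⟨∑ x, (Θ x).length, fun x => ?_⟩
    exact Finset.single_le_sum (f := fun x => (Θ x).length) (fun _ _ => Nat.zero_le _)
      (Finset.mem_univ x)
  obtain ⟨M, hM⟩ : ∃ M, ∀ x, (ψ x).length ≤ M := by
    refine ⟨∑ x, (ψ x).length, fun x => ?_⟩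
    exact Finset.single_le_sum (f := fun x => (ψ x).length) (fun _ _ => Nat.zero_le _)
      (Finset.mem_univ x)
  have hmain : ∀ v, LX v → (ap ψ (ap Θ v)).length ≤ 2 * B := by
    intro v hv
    obtain ⟨z, hz, hW⟩ := hL (ap Θ v) ⟨v, hv, List.infix_rfl⟩
    obtain ⟨r, y, s, hWe, hr, hs, -⟩ := fac_split hB z _ hW
    have h2 : ap ρ (ap ψ (ap Θ v)) = [] := by
      rw [apc Θ ψ v, apc]
      exact ap_empty_lof _ hem _
    rw [hWe, ap_append, ap_append, hρΘ] at h2
    have hy : y = [] := by
      have := (List.append_eq_nil_iff.1 h2).2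
      exact (List.append_eq_nil_iff.1 this).1
    rw [hWe, hy]
    simp only [List.length_append, ap_nil, List.length_nil]
    omega
  refine ⟨2 * B + 2 * (M * B), ?_⟩
  rintro w ⟨z, hz, hw⟩
  obtain ⟨r, v, s, hWe, hr, hs, hv⟩ := fac_split hB z w hw
  have h1 := hmain v (LX_infix hz hv)
  have h2 := (len_bound hM r).trans (Nat.mul_le_mul_left M hr)
  have h3 := (len_bound hM s).trans (Nat.mul_le_mul_left M hs)
  rw [hWe]
  simp only [ap_append, List.length_append]
  omega

theorem pref_length {α : Type} (u : ℕ → α) (n : ℕ) : (pref u n).length = n := by simp [pref]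

theorem pref_take {α : Type} (u : ℕ → α) {n L : ℕ} (h : n ≤ L) :
    pref u n = (pref u L).take n := by
  unfold pref
  rw [← List.map_take, List.take_range, min_eq_left h]

theorem pref_prefix {α : Type} (u : ℕ → α) {n L : ℕ} (h : n ≤ L) : pref u n <+: pref u L := by
  rw [pref_take u h]
  exact List.take_prefix _ _

theorem eq_pref {α : Type} {u : ℕ → α} {w : List α} {L : ℕ} (h : w <+: pref u L) :
    w = pref u w.length := by
  have h1 := h.length_le
  rw [pref_length] at h1
  rw [pref_take u h1]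
  exact List.prefix_iff_eq_take.1 h

/-- The image of the fixed point is the fixed point up to finitely many letters. -/
theorem word_shift {k : ℕ} {Θ : Fin 3 → List (Fin k)} {ψ : Fin k → List (Fin k)}
    {u : ℕ → Fin k} (hpre : ∀ n, ∃ v L, n ≤ L ∧ ap Θ v = pref u L)
    {z : List (Fin k)}
    (hz : (∀ x, z ++ ap ψ (Θ x) = Θ x ++ z) ∨ (∀ x, ap ψ (Θ x) ++ z = z ++ Θ x)) :
    (∀ m, ∃ n, m ≤ (ap ψ (pref u n)).length) ∧
    ((∀ n, ∃ m, z ++ ap ψ (pref u n) = pref u m) ∨
      (∀ n, ∃ m, ap ψ (pref u n) <+: z ++ pref u m)) := by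
  rcases hz with hz | hz
  · have hw : ∀ v, z ++ ap ψ (ap Θ v) = ap Θ v ++ z := by
      intro v
      rw [apc]
      exact shift_word hz v
    constructor
    · intro m
      obtain ⟨v, L, hL, hv⟩ := hpre m
      refine ⟨L, ?_⟩
      have h1 := congrArg List.length (hw v)
      rw [hv, List.length_append, List.length_append, pref_length] at h1
      omega
    · left
      intro n
      obtain ⟨v, L, hL, hv⟩ := hpre (max n (z ++ ap ψ (pref u n)).length)
      have h1 : z ++ ap ψ (pref u n) <+: pref u L ++ z := by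
        rw [← hv, ← hw, hv]
        exact (List.prefix_append_right_inj z).2
          (fx_prefix ψ (pref_prefix u ((le_max_left _ _).trans hL)))
      have h2 : z ++ ap ψ (pref u n) <+: pref u L := by
        refine List.prefix_of_prefix_length_le h1 (List.prefix_append _ _) ?_
        rw [pref_length]
        exact (le_max_right _ _).trans hL
      exact ⟨_, eq_pref h2⟩
  · have hw : ∀ v, ap ψ (ap Θ v) ++ z = z ++ ap Θ v := by
      intro v
      rw [apc]
      exact (shift_word (fun x => (hz x).symm) v).symm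
    constructor
    · intro m
      obtain ⟨v, L, hL, hv⟩ := hpre m
      refine ⟨L, ?_⟩
      have h1 := congrArg List.length (hw v)
      rw [hv, List.length_append, List.length_append, pref_length] at h1
      omega
    · right
      intro n
      obtain ⟨v, L, hL, hv⟩ := hpre n
      refine ⟨L, ?_⟩
      have h1 : ap ψ (pref u n) <+: ap ψ (ap Θ v) := by
        rw [hv]
        exact fx_prefix ψ (pref_prefix u hL)
      rw [← hv, ← hw]
      exact h1.trans (List.prefix_append _ _)

end Pool.Y348.CP
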